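import Pool.Agent.H93.Ins.Hanoi

/-!
# The Hanoi towers groups on five or more pegs are not amenable

The proof for five pegs is in `Pool/Agent/H7/Han`; `Pool/Agent/H93/Ins` carries an invariant mean
on `H n`, `n ≥ 5`, over to the case of five pegs and turns it into Folner sets.
-/

set_option autoImplicit false

namespace Pool.Agent.Results.MP_047434_al.NotAmenable

/-- The tree automorphism `a_{ij}` on the words over `{0, ..., n-1}`: it fixes the empty word,
`a_{ij}(iw) = jw`, `a_{ij}(jw) = iw`, and `a_{ij}(xw) = x a_{ij}(w)` for `x` not in `{i, j}`. -/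
def a {n : ℕ} (i j : Fin n) : List (Fin n) → List (Fin n)
  | [] => []
  | x :: w => if x = i then j :: w else if x = j then i :: w else x :: a i j w

/-- The Hanoi towers group on `n` pegs: the group of permutations of the words (vertices of the
tree) generated by the `a_{ij}` with `i < j`. -/
def H (n : ℕ) : Subgroup (Equiv.Perm (List (Fin n))) :=
  Subgroup.closure {σ | ∃ i j : Fin n, i < j ∧ ∀ w, σ w = a i j w}

/-- A group is amenable if it has a finitely additive left-invariant probability measure
defined on all its subsets. -/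
def Amenable (G : Type) [Group G] : Prop :=
  ∃ m : Set G → ℝ, (∀ A, 0 ≤ m A) ∧ m Set.univ = 1 ∧
    (∀ A B : Set G, Disjoint A B → m (A ∪ B) = m A + m B) ∧
    ∀ (g : G) (A : Set G), m ((fun x => g * x) '' A) = m A

/-- For every `n ≥ 5` the Hanoi towers group on `n` pegs is not amenable. -/
theorem result : ∀ n : ℕ, 5 ≤ n → ¬ Amenable (H n) := by
  rintro n hn ⟨m, h0, h1, h2, h3⟩
  exact Pool.H93Ins.no_mean n (fun i j => a i j) hn (fun _ _ => rfl) (fun _ _ _ _ => rfl)
    (H n) rfl m h0 h1 h2 h3

end Pool.Agent.Results.MP_047434_al.NotAmenable
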